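import Pool.Agent.NDR.StmtsL

set_option autoImplicit false

namespace Pool.Agent.NDR.H77

open Finset

/-- Farkas' lemma for a finite index type -/
theorem frk_fintype (hF : FrkStmt) (J V : Type) [Fintype J] [AddCommGroup V] [Module ℚ V]
    (f : J → V →ₗ[ℚ] ℚ) (g : V →ₗ[ℚ] ℚ) (h : ∀ x, (∀ j, f j x ≤ 0) → g x ≤ 0) :
    ∃ c : J → ℚ, (∀ j, 0 ≤ c j) ∧ g = ∑ j, c j • f j := by
  classical
  let e := Fintype.equivFin J
  obtain ⟨c, hc, hg⟩ := hF (Fintype.card J) V (fun i => f (e.symm i)) g (fun x hx => h x fun j => by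
    have := hx (e j)
    simpa using this)
  refine ⟨fun j => c (e j), fun j => hc _, ?_⟩
  rw [hg]
  refine (Equiv.sum_comp e (fun i => c i • f (e.symm i))).symm.trans ?_
  refine Finset.sum_congr rfl fun j _ => ?_
  simp

theorem swap_sum {ι κ : Type} [Fintype ι] [Fintype κ] (G : κ → ι → ℚ) (l : κ → ℚ) (y : ι → ℚ) :
    ∑ i, (∑ k, l k * G k i) * y i = ∑ k, l k * ∑ i, G k i * y i := by
  simp only [Finset.sum_mul, Finset.mul_sum]
  rw [Finset.sum_comm]
  refine Finset.sum_congr rfl fun k _ => Finset.sum_congr rfl fun i _ => ?_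
  ring

theorem weak {ι κ : Type} [Fintype ι] [Fintype κ] (G : κ → ι → ℚ) (b : κ → ℚ) (c y : ι → ℚ)
    (l : κ → ℚ) (h1 : ∀ i, 0 ≤ y i) (h2 : ∀ k, ∑ i, G k i * y i ≤ b k) (h3 : ∀ k, 0 ≤ l k)
    (h4 : ∀ i, c i ≤ ∑ k, l k * G k i) : ∑ i, c i * y i ≤ ∑ k, l k * b k := by
  calc ∑ i, c i * y i ≤ ∑ i, (∑ k, l k * G k i) * y i :=
        Finset.sum_le_sum fun i _ => mul_le_mul_of_nonneg_right (h4 i) (h1 i)
    _ = ∑ k, l k * ∑ i, G k i * y i := swap_sum G l y
    _ ≤ ∑ k, l k * b k :=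
        Finset.sum_le_sum fun k _ => mul_le_mul_of_nonneg_left (h2 k) (h3 k)

theorem lpd (hF : FrkStmt) : LpdStmt := by
  classical
  intro ι κ _ _ G b c y₀ l₀ hy0 hGy0 hl0 hlG0
  suffices hs : ∃ (y : ι → ℚ) (l : κ → ℚ), (∀ i, 0 ≤ y i) ∧ (∀ k, ∑ i, G k i * y i ≤ b k) ∧
      (∀ k, 0 ≤ l k) ∧ (∀ i, c i ≤ ∑ k, l k * G k i) ∧ ∑ k, l k * b k ≤ ∑ i, c i * y i by
    obtain ⟨y, l, h1, h2, h3, h4, h5⟩ := hs
    exact ⟨y, l, h1, h2, h3, h4, le_antisymm (weak G b c y l h1 h2 h3 h4) h5⟩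
  by_contra hnone
  let W := (ι → ℚ) × (κ → ℚ) × ℚ
  let fY : ι → W →ₗ[ℚ] ℚ := fun i => LinearMap.proj i ∘ₗ LinearMap.fst ℚ _ _
  let fL : κ → W →ₗ[ℚ] ℚ := fun k =>
    LinearMap.proj k ∘ₗ LinearMap.fst ℚ _ _ ∘ₗ LinearMap.snd ℚ _ _
  let fT : W →ₗ[ℚ] ℚ := LinearMap.snd ℚ _ _ ∘ₗ LinearMap.snd ℚ _ _
  have fYa : ∀ i (x : W), fY i x = x.1 i := fun i x => rfl
  have fLa : ∀ k (x : W), fL k x = x.2.1 k := fun k x => rfl
  have fTa : ∀ (x : W), fT x = x.2.2 := fun x => rfl
  let f : ι ⊕ κ ⊕ κ ⊕ ι ⊕ Unit → W →ₗ[ℚ] ℚ := fun j => match j with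
    | Sum.inl i => - fY i
    | Sum.inr (Sum.inl k) => - fL k
    | Sum.inr (Sum.inr (Sum.inl k)) => ∑ i, G k i • fY i - b k • fT
    | Sum.inr (Sum.inr (Sum.inr (Sum.inl i))) => c i • fT - ∑ k, G k i • fL k
    | Sum.inr (Sum.inr (Sum.inr (Sum.inr _))) => ∑ k, b k • fL k - ∑ i, c i • fY i
  have f1 : ∀ i (x : W), f (Sum.inl i) x = - x.1 i := fun i x => rfl
  have f2 : ∀ k (x : W), f (Sum.inr (Sum.inl k)) x = - x.2.1 k := fun k x => rfl
  have f3 : ∀ k (x : W), f (Sum.inr (Sum.inr (Sum.inl k))) x =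
      ∑ i, G k i * x.1 i - b k * x.2.2 := by
    intro k x
    show (∑ i, G k i • fY i - b k • fT) x = _
    simp only [LinearMap.sub_apply, LinearMap.sum_apply, LinearMap.smul_apply, smul_eq_mul,
      fYa, fTa]
  have f4 : ∀ i (x : W), f (Sum.inr (Sum.inr (Sum.inr (Sum.inl i)))) x =
      c i * x.2.2 - ∑ k, G k i * x.2.1 k := by
    intro i x
    show (c i • fT - ∑ k, G k i • fL k) x = _
    simp only [LinearMap.sub_apply, LinearMap.sum_apply, LinearMap.smul_apply, smul_eq_mul,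
      fLa, fTa]
  have f5 : ∀ u (x : W), f (Sum.inr (Sum.inr (Sum.inr (Sum.inr u)))) x =
      ∑ k, b k * x.2.1 k - ∑ i, c i * x.1 i := by
    intro u x
    show (∑ k, b k • fL k - ∑ i, c i • fY i) x = _
    simp only [LinearMap.sub_apply, LinearMap.sum_apply, LinearMap.smul_apply, smul_eq_mul,
      fLa, fYa]
  obtain ⟨m, hm, hg⟩ := frk_fintype hF _ W f fT (by
    intro x hx
    rw [fTa]
    by_contra hpos
    push Not at hpos
    apply hnone
    refine ⟨fun i => x.1 i / x.2.2, fun k => x.2.1 k / x.2.2, fun i => ?_, fun k => ?_,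
      fun k => ?_, fun i => ?_, ?_⟩
    · have := hx (Sum.inl i)
      rw [f1] at this
      exact div_nonneg (by linarith) hpos.le
    · have := hx (Sum.inr (Sum.inr (Sum.inl k)))
      rw [f3] at this
      have e : ∑ i, G k i * (x.1 i / x.2.2) = (∑ i, G k i * x.1 i) / x.2.2 := by
        rw [Finset.sum_div]
        exact Finset.sum_congr rfl fun i _ => by ring
      rw [e, div_le_iff₀ hpos]
      linarith
    · have := hx (Sum.inr (Sum.inl k))
      rw [f2] at this
      exact div_nonneg (by linarith) hpos.le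
    · have := hx (Sum.inr (Sum.inr (Sum.inr (Sum.inl i))))
      rw [f4] at this
      have e : ∑ k, x.2.1 k / x.2.2 * G k i = (∑ k, G k i * x.2.1 k) / x.2.2 := by
        rw [Finset.sum_div]
        exact Finset.sum_congr rfl fun k _ => by ring
      rw [e, le_div_iff₀ hpos]
      linarith
    · have := hx (Sum.inr (Sum.inr (Sum.inr (Sum.inr ()))))
      rw [f5 ()] at this
      have e1 : ∑ k, x.2.1 k / x.2.2 * b k = (∑ k, b k * x.2.1 k) / x.2.2 := by
        rw [Finset.sum_div]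
        exact Finset.sum_congr rfl fun k _ => by ring
      have e2 : ∑ i, c i * (x.1 i / x.2.2) = (∑ i, c i * x.1 i) / x.2.2 := by
        rw [Finset.sum_div]
        exact Finset.sum_congr rfl fun i _ => by ring
      rw [e1, e2]
      exact div_le_div_of_nonneg_right (by linarith) hpos.le)
  -- the expanded identity
  set α : ι → ℚ := fun i => m (Sum.inl i) with hα
  set β : κ → ℚ := fun k => m (Sum.inr (Sum.inl k)) with hβ
  set ρ : κ → ℚ := fun k => m (Sum.inr (Sum.inr (Sum.inl k))) with hρ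
  set π : ι → ℚ := fun i => m (Sum.inr (Sum.inr (Sum.inr (Sum.inl i)))) with hπ
  set γ : ℚ := m (Sum.inr (Sum.inr (Sum.inr (Sum.inr ())))) with hγ
  have hα0 : ∀ i, 0 ≤ α i := fun i => hm _
  have hβ0 : ∀ k, 0 ≤ β k := fun k => hm _
  have hρ0 : ∀ k, 0 ≤ ρ k := fun k => hm _
  have hπ0 : ∀ i, 0 ≤ π i := fun i => hm _
  have hγ0 : 0 ≤ γ := hm _
  have hid : ∀ x : W, x.2.2 = ∑ i, α i * (- x.1 i) + (∑ k, β k * (- x.2.1 k) +
      (∑ k, ρ k * (∑ i, G k i * x.1 i - b k * x.2.2) +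
      (∑ i, π i * (c i * x.2.2 - ∑ k, G k i * x.2.1 k) +
      γ * (∑ k, b k * x.2.1 k - ∑ i, c i * x.1 i)))) := by
    intro x
    have h1 := LinearMap.congr_fun hg x
    rw [fTa, LinearMap.sum_apply] at h1
    refine h1.trans ?_
    simp only [Fintype.sum_sum_type, LinearMap.smul_apply, smul_eq_mul, f1, f2, f3, f4, f5,
      Finset.univ_unique, Finset.sum_singleton, PUnit.default_eq_unit]
    rfl
  have hA : ∀ i, ∑ k, ρ k * G k i = α i + γ * c i := by
    intro i
    have h1 := hid (Pi.single i 1, 0, 0)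
    simp only [Pi.zero_apply, mul_zero, neg_zero, Finset.sum_const_zero, sub_zero, add_zero,
      zero_sub, zero_add, Pi.single_apply, mul_ite, mul_one, Finset.sum_ite_eq',
      Finset.mem_univ, if_true, mul_neg] at h1
    simp only [Finset.sum_neg_distrib, Finset.sum_ite_eq', Finset.mem_univ, if_true] at h1
    linarith
  have hB : ∀ k, ∑ i, G k i * π i = γ * b k - β k := by
    intro k
    have h1 := hid (0, Pi.single k 1, 0)
    simp only [Pi.zero_apply, mul_zero, neg_zero, Finset.sum_const_zero, sub_zero, add_zero,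
      zero_sub, zero_add, Pi.single_apply, mul_ite, mul_one, Finset.sum_ite_eq',
      Finset.mem_univ, if_true, apply_ite Neg.neg, mul_neg] at h1
    have e : ∑ i, G k i * π i = ∑ i, π i * G k i := Finset.sum_congr rfl fun i _ => mul_comm _ _
    rw [e]
    simp only [Finset.sum_ite_eq', Finset.mem_univ, if_true, Finset.sum_neg_distrib] at h1
    linarith
  have hC : ∑ i, c i * π i - ∑ k, ρ k * b k = 1 := by
    have h1 := hid (0, 0, 1)
    simp only [Pi.zero_apply, mul_zero, neg_zero, Finset.sum_const_zero, sub_zero, add_zero,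
      zero_sub, zero_add, mul_one, mul_neg, Finset.sum_neg_distrib] at h1
    have e : ∑ i, c i * π i = ∑ i, π i * c i := Finset.sum_congr rfl fun i _ => mul_comm _ _
    rw [e]
    linarith
  rcases hγ0.lt_or_eq with hγp | hγz
  · apply hnone
    refine ⟨fun i => π i / γ, fun k => ρ k / γ, fun i => div_nonneg (hπ0 i) hγ0, fun k => ?_,
      fun k => div_nonneg (hρ0 k) hγ0, fun i => ?_, ?_⟩
    · have e : ∑ i, G k i * (π i / γ) = (∑ i, G k i * π i) / γ := by
        rw [Finset.sum_div]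
        exact Finset.sum_congr rfl fun i _ => by ring
      rw [e, div_le_iff₀ hγp, hB k]
      have := hβ0 k
      linarith
    · have e : ∑ k, ρ k / γ * G k i = (∑ k, ρ k * G k i) / γ := by
        rw [Finset.sum_div]
        exact Finset.sum_congr rfl fun k _ => by ring
      rw [e, le_div_iff₀ hγp, hA i]
      have := hα0 i
      linarith
    · have e1 : ∑ k, ρ k / γ * b k = (∑ k, ρ k * b k) / γ := by
        rw [Finset.sum_div]
        exact Finset.sum_congr rfl fun k _ => by ring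
      have e2 : ∑ i, c i * (π i / γ) = (∑ i, c i * π i) / γ := by
        rw [Finset.sum_div]
        exact Finset.sum_congr rfl fun i _ => by ring
      rw [e1, e2]
      exact div_le_div_of_nonneg_right (by linarith) hγ0
  · rw [← hγz] at hA hB
    have h1 : ∑ i, c i * π i ≤ 0 := by
      calc ∑ i, c i * π i ≤ ∑ i, (∑ k, l₀ k * G k i) * π i :=
            Finset.sum_le_sum fun i _ => mul_le_mul_of_nonneg_right (hlG0 i) (hπ0 i)
        _ = ∑ k, l₀ k * ∑ i, G k i * π i := swap_sum G l₀ π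
        _ ≤ 0 := by
            refine Finset.sum_nonpos fun k _ => ?_
            rw [hB k]
            have := mul_nonneg (hl0 k) (hβ0 k)
            linarith
    have h2 : 0 ≤ ∑ k, ρ k * b k := by
      calc (0 : ℚ) ≤ ∑ i, (∑ k, ρ k * G k i) * y₀ i := by
            refine Finset.sum_nonneg fun i _ => ?_
            rw [hA i]
            have := mul_nonneg (hα0 i) (hy0 i)
            linarith
        _ = ∑ k, ρ k * ∑ i, G k i * y₀ i := swap_sum G ρ y₀
        _ ≤ ∑ k, ρ k * b k :=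
            Finset.sum_le_sum fun k _ => mul_le_mul_of_nonneg_left (hGy0 k) (hρ0 k)
    linarith

end Pool.Agent.NDR.H77
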